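import Mathlib

open Set Metric Filter Topology
open scoped Manifold ContDiff

namespace Pool.Agent.H.MP_7ec995_an

abbrev E := ℂ × ℂ
abbrev P := Fin 3 → ℂ

def s (α : Fin 3) (e : E) : P := ![![1, e.1, e.2], ![e.1, 1, e.2], ![e.1, e.2, 1]] α

def o1 : Fin 3 → Fin 3 := ![1, 0, 0]
def o2 : Fin 3 → Fin 3 := ![2, 2, 1]

lemma s_a (α e) : s α e α = 1 := by fin_cases α <;> rfl
lemma s_1 (α e) : s α e (o1 α) = e.1 := by fin_cases α <;> rfl
lemma s_2 (α e) : s α e (o2 α) = e.2 := by fin_cases α <;> rfl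

lemma W_s (α e) : s α e ≠ 0 := fun h => by
  have := s_a α e; rw [h] at this; simp at this

lemma s1 (α i) : ContDiff ℂ ω fun e => s α e i := by
  fin_cases α <;> fin_cases i <;> simp [s] <;> fun_prop

noncomputable def rat (α : Fin 3) (p : P) : E := (p (o1 α) / p α, p (o2 α) / p α)

lemma s_rat (α) {p : P} (h1 : p α ≠ 0) : s α (rat α p) = (p α)⁻¹ • p := by
  funext i
  fin_cases α <;> fin_cases i <;> simp [s, rat, o1, o2] at h1 ⊢ <;> field_simp

noncomputable def nn (p : P) : ℂ := ∑ j, p j * (starRingEnd ℂ) (p j)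

noncomputable def Φ (p : P) : Fin 3 → Fin 3 → ℂ := fun j k => p j * (starRingEnd ℂ) (p k) / nn p

lemma nn_ne {p : P} (hp : p ≠ 0) : nn p ≠ 0 := by
  obtain ⟨α, h1⟩ := Function.ne_iff.1 hp
  have : nn p = ((∑ j, Complex.normSq (p j) : ℝ) : ℂ) := by simp [nn, Complex.mul_conj]
  rw [this]
  refine Complex.ofReal_ne_zero.2 (ne_of_gt (Finset.sum_pos' (fun _ _ => Complex.normSq_nonneg _)
    ⟨α, Finset.mem_univ _, Complex.normSq_pos.2 h1⟩))

lemma Φ_smul (p : P) {a : ℂ} (ha : a ≠ 0) : Φ (a • p) = Φ p := by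
  have hc : a * (starRingEnd ℂ) a ≠ 0 := by simp [ha]
  have n : nn (a • p) = a * (starRingEnd ℂ) a * nn p := by
    simp only [nn, Finset.mul_sum, map_mul, Pi.smul_apply, smul_eq_mul]
    exact Finset.sum_congr rfl fun j _ => by ring
  funext j k
  simp only [Φ, n, Pi.smul_apply, smul_eq_mul]
  rw [← mul_div_mul_left _ (nn p) hc]
  congr 1
  simp only [map_mul]; ring

lemma Φ_cont {p : P} (hp : p ≠ 0) : ContinuousAt Φ p := by
  refine continuousAt_pi.2 fun j => continuousAt_pi.2 fun k => ?_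
  refine ContinuousAt.div (by fun_prop) ?_ (nn_ne hp)
  unfold nn
  fun_prop

def X : Type := {q : Fin 3 → Fin 3 → ℂ // ∃ p, p ≠ 0 ∧ Φ p = q}

noncomputable instance : MetricSpace X := inferInstanceAs (MetricSpace (Subtype _))

noncomputable def mk (p : P) (hp : p ≠ 0) : X := ⟨Φ p, p, hp, rfl⟩

lemma ex (q : X) : ∃ p hp, q = mk p hp := by
  obtain ⟨_, p, hp, rfl⟩ := q
  exact ⟨p, hp, rfl⟩

def U (α : Fin 3) : Set X := {q | q.1 α α ≠ 0}

noncomputable def c (α : Fin 3) (q : X) : E := (q.1 (o1 α) α / q.1 α α, q.1 (o2 α) α / q.1 α α)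

lemma memU {α p} (hp : p ≠ 0) : mk p hp ∈ U α ↔ p α ≠ 0 := by
  show p _ * (starRingEnd ℂ) (p _) / nn p ≠ 0 ↔ _
  simp [nn_ne hp]

lemma c_mk {α p} (hp : p ≠ 0) (h : mk p hp ∈ U α) : c α (mk p hp) = rat α p := by
  have h1 := (memU hp).1 h
  have := nn_ne hp
  have h3 : (starRingEnd ℂ) (p α) ≠ 0 := by simp [h1]
  refine Prod.ext ?_ ?_ <;> simp only [c, mk, Φ, rat] <;> field_simp

noncomputable def ci (α : Fin 3) (e : E) : X := mk (s α e) (W_s α e)

lemma ci_mem (α e) : ci α e ∈ U α := by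
  rw [ci, memU, s_a]; simp

lemma c_ci (α e) : c α (ci α e) = e := by
  rw [ci, c_mk _ (ci_mem α e)]
  simp [rat, s_a, s_1, s_2]

lemma ci_rat {α} {p : P} (hp : p ≠ 0) (h : p α ≠ 0) : ci α (rat α p) = mk p hp := by
  refine Subtype.ext ?_
  show Φ _ = Φ p
  rw [s_rat α h, Φ_smul p (inv_ne_zero h)]

lemma ci_c {α} {q : X} (h : q ∈ U α) : ci α (c α q) = q := by
  obtain ⟨p, hp, rfl⟩ := ex q
  rw [c_mk hp h, ci_rat hp ((memU hp).1 h)]

lemma ent (j k : Fin 3) : Continuous fun q : X => q.1 j k :=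
  (continuous_apply k).comp ((continuous_apply j).comp continuous_subtype_val)

lemma U_open (α) : IsOpen (U α) := isOpen_ne_fun (ent _ _) continuous_const

lemma ci_cont (α) : Continuous (ci α) := by
  refine Continuous.subtype_mk (continuous_iff_continuousAt.2 fun e => ?_) _
  exact (Φ_cont (W_s α e)).comp (continuous_pi fun i => (s1 α i).continuous).continuousAt

noncomputable def ch (α : Fin 3) : OpenPartialHomeomorph X E where
  toFun := c α
  invFun := ci α
  source := U α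
  target := univ
  map_source' _ _ := trivial
  map_target' e _ := ci_mem α e
  left_inv' _ h := ci_c h
  right_inv' e _ := c_ci α e
  open_source := U_open α
  open_target := isOpen_univ
  continuousOn_toFun := ((ent _ _).continuousOn.div (ent _ _).continuousOn fun _ h => h).prodMk
    ((ent _ _).continuousOn.div (ent _ _).continuousOn fun _ h => h)
  continuousOn_invFun := (ci_cont α).continuousOn

lemma cover' (q : X) : ∃ α, q ∈ U α ∧ c α q ∈ closedBall (0 : E) 1 := by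
  obtain ⟨p, hp, rfl⟩ := ex q
  obtain ⟨α, hα⟩ := Finite.exists_max fun i => ‖p i‖
  have h1 : p α ≠ 0 := fun h => hp (funext fun i => by simpa [h] using hα i)
  have h := (memU hp).2 h1
  refine ⟨α, h, ?_⟩
  rw [c_mk hp h, mem_closedBall_zero_iff, Prod.norm_def]
  simp only [rat, norm_div]
  exact max_le (div_le_one_of_le₀ (hα _) (norm_nonneg _)) (div_le_one_of_le₀ (hα _) (norm_nonneg _))

noncomputable instance : ChartedSpace E X where
  atlas := range ch
  chartAt q := ch (cover' q).choose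
  mem_chart_source q := (cover' q).choose_spec.1
  chart_mem_atlas _ := mem_range_self _

lemma trans (α β) : ContDiffOn ℂ ω (fun e => c β (ci α e)) {e | e ∈ univ ∧ ci α e ∈ U β} := by
  have k : ∀ e ∈ {e | e ∈ univ ∧ ci α e ∈ U β}, s α e β ≠ 0 := fun e he => (memU (W_s α e)).1 he.2
  refine ContDiffOn.congr (f := fun e => rat β (s α e)) ?_ fun e he => c_mk _ he.2
  exact ((s1 α _).contDiffOn.div (s1 α _).contDiffOn k).prodMk
    ((s1 α _).contDiffOn.div (s1 α _).contDiffOn k)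

instance : IsManifold 𝓘(ℂ, E) ω X := by
  refine isManifold_of_contDiffOn _ _ _ ?_
  rintro _ _ ⟨α, rfl⟩ ⟨β, rfl⟩
  have := trans α β
  simp only [mfld_simps]
  exact this

instance : IsManifold 𝓘(ℝ, E) ∞ X := by
  refine isManifold_of_contDiffOn _ _ _ ?_
  rintro _ _ ⟨α, rfl⟩ ⟨β, rfl⟩
  have : ContDiffOn ℝ ∞ _ _ := ((trans α β).restrict_scalars ℝ).of_le le_top
  simp only [mfld_simps]
  exact this

lemma md_c (α) : MDifferentiableOn 𝓘(ℂ, E) 𝓘(ℂ, E) (c α) (U α) :=
  mdifferentiableOn_atlas (I := 𝓘(ℂ, E)) (e := ch α) (mem_range_self α)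

lemma md_ci (α) : MDifferentiable 𝓘(ℂ, E) 𝓘(ℂ, E) (ci α) :=
  mdifferentiableOn_univ.1
    (mdifferentiableOn_atlas_symm (I := 𝓘(ℂ, E)) (e := ch α) (mem_range_self α))

lemma sm_c (α) : ContMDiffOn 𝓘(ℝ, E) 𝓘(ℝ, E) ∞ (c α) (U α) :=
  contMDiffOn_of_mem_maximalAtlas (I := 𝓘(ℝ, E)) (e := ch α)
    (IsManifold.subset_maximalAtlas (mem_range_self α))

instance : CompactSpace X := by
  have : (univ : Set X) = ⋃ α, ci α '' closedBall 0 1 := by
    refine (eq_univ_of_forall fun q => ?_).symm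
    obtain ⟨α, h, h1⟩ := cover' q
    exact mem_iUnion.2 ⟨α, c α q, h1, ci_c h⟩
  exact ⟨this ▸ isCompact_iUnion fun α => (isCompact_closedBall _ _).image (ci_cont α)⟩

instance : ConnectedSpace X := by
  have : (univ : Set X) = ⋃ α, range (ci α) := by
    refine (eq_univ_of_forall fun q => ?_).symm
    obtain ⟨α, h, -⟩ := cover' q
    exact mem_iUnion.2 ⟨α, c α q, ci_c h⟩
  refine connectedSpace_iff_univ.2 ⟨⟨ci 0 0, trivial⟩, ?_⟩
  rw [this]
  refine isPreconnected_iUnion ⟨ci 0 (1, 1), mem_iInter.2 fun α => ⟨c α _, ci_c ?_⟩⟩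
    fun α => isPreconnected_range (ci_cont α)
  rw [ci, memU]
  fin_cases α <;> simp [s]

noncomputable def l (α : Fin 3) (q : X) : P := s α (c α q)

lemma rel {α β} {q : X} (ha : q ∈ U α) (hb : q ∈ U β) :
    l α q β ≠ 0 ∧ l β q = (l α q β)⁻¹ • l α q := by
  have hW := W_s α (c α q)
  have e : q = mk _ hW := (ci_c ha).symm
  have hb' : mk _ hW ∈ U β := e ▸ hb
  have h1 := (memU hW).1 hb'
  refine ⟨h1, ?_⟩
  unfold l
  rw [← s_rat β h1, ← c_mk hW hb', ← e]

lemma md_comp (α) {F : E → ℂ} (hF : ContDiff ℂ ω F) :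
    MDifferentiableOn 𝓘(ℂ, E) 𝓘(ℂ) (fun q => F (c α q)) (U α) :=
  (hF.differentiable (by simp)).mdifferentiable.comp_mdifferentiableOn (md_c α)

lemma md_mk {G : Type} [NormedAddCommGroup G] [NormedSpace ℂ G] {F : G → P}
    (hF : Differentiable ℂ F) (h : ∀ z, F z ≠ 0) :
    MDifferentiable 𝓘(ℂ, G) 𝓘(ℂ, E) fun z => mk (F z) (h z) := fun z => by
  obtain ⟨α, hα⟩ := Function.ne_iff.1 (h z)
  have hα' : F z α ≠ 0 := hα
  have h1 : ∀ i, DifferentiableAt ℂ (fun w => F w i) z := fun i => differentiableAt_pi.1 (hF z) i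
  have h3 : ∀ i, DifferentiableAt ℂ (fun w => F w i / F w α) z := fun i => by
    simp only [div_eq_mul_inv]
    exact (h1 i).mul ((h1 α).inv hα')
  have h2 : DifferentiableAt ℂ (fun w => rat α (F w)) z := (h3 _).prodMk (h3 _)
  refine ((md_ci α _).comp z h2.mdifferentiableAt).congr_of_eventuallyEq ?_
  filter_upwards [(h1 α).continuousAt.eventually_ne hα'] with w hw using (ci_rat _ hw).symm

end Pool.Agent.H.MP_7ec995_an
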